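import Pool.Agent.Lib.MP_0a5adf_nt.EXP.Base

/-!
# Module CS: two Cauchy-Schwarz steps
-/

set_option autoImplicit false

namespace Pool.Agent.Lib.MP_0a5adf_nt.EXP.H78

open Finset

/-- Cauchy-Schwarz for the number of coincidences. -/
lemma pairs_sq {P Q G : Type} [DecidableEq G] (s : Finset P) (t : Finset Q) (u : P → G)
    (v : Q → G) : (#{q ∈ s ×ˢ t | u q.1 = v q.2}) ^ 2 ≤
      #{q ∈ s ×ˢ s | u q.1 = u q.2} * #{q ∈ t ×ˢ t | v q.1 = v q.2} := by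
  classical
  set X : Finset G := s.image u ∪ t.image v with hX
  have h1 : #{q ∈ s ×ˢ t | u q.1 = v q.2} =
      ∑ x ∈ X, #{p ∈ s | u p = x} * #{p ∈ t | v p = x} := by
    rw [Finset.card_eq_sum_card_fiberwise (f := fun q : P × Q => u q.1) (t := X)]
    · apply Finset.sum_congr rfl
      intro x _
      rw [← Finset.card_product]
      congr 1
      ext ⟨p, q⟩
      simp only [mem_filter, mem_product]
      constructor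
      · rintro ⟨⟨⟨h1, h2⟩, h3⟩, h4⟩
        exact ⟨⟨h1, h4⟩, h2, by rw [← h3, h4]⟩
      · rintro ⟨⟨h1, h2⟩, h3, h4⟩
        exact ⟨⟨⟨h1, h3⟩, by rw [h2, h4]⟩, h2⟩
    · intro q hq
      rw [Finset.mem_coe, mem_filter, mem_product] at hq
      rw [Finset.mem_coe, hX, mem_union]
      exact Or.inl (mem_image_of_mem _ hq.1.1)
  have h2 : #{q ∈ s ×ˢ s | u q.1 = u q.2} = ∑ x ∈ X, #{p ∈ s | u p = x} ^ 2 := by
    rw [Finset.card_eq_sum_card_fiberwise (f := fun q : P × P => u q.1) (t := X)]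
    · apply Finset.sum_congr rfl
      intro x _
      rw [sq, ← Finset.card_product]
      congr 1
      ext ⟨p, q⟩
      simp only [mem_filter, mem_product]
      constructor
      · rintro ⟨⟨⟨h1, h2⟩, h3⟩, h4⟩
        exact ⟨⟨h1, h4⟩, h2, by rw [← h3, h4]⟩
      · rintro ⟨⟨h1, h2⟩, h3, h4⟩
        exact ⟨⟨⟨h1, h3⟩, by rw [h2, h4]⟩, h2⟩
    · intro q hq
      rw [Finset.mem_coe, mem_filter, mem_product] at hq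
      rw [Finset.mem_coe, hX, mem_union]
      exact Or.inl (mem_image_of_mem _ hq.1.1)
  have h3 : #{q ∈ t ×ˢ t | v q.1 = v q.2} = ∑ x ∈ X, #{p ∈ t | v p = x} ^ 2 := by
    rw [Finset.card_eq_sum_card_fiberwise (f := fun q : Q × Q => v q.1) (t := X)]
    · apply Finset.sum_congr rfl
      intro x _
      rw [sq, ← Finset.card_product]
      congr 1
      ext ⟨p, q⟩
      simp only [mem_filter, mem_product]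
      constructor
      · rintro ⟨⟨⟨h1, h2⟩, h3⟩, h4⟩
        exact ⟨⟨h1, h4⟩, h2, by rw [← h3, h4]⟩
      · rintro ⟨⟨h1, h2⟩, h3, h4⟩
        exact ⟨⟨⟨h1, h3⟩, by rw [h2, h4]⟩, h2⟩
    · intro q hq
      rw [Finset.mem_coe, mem_filter, mem_product] at hq
      rw [Finset.mem_coe, hX, mem_union]
      exact Or.inr (mem_image_of_mem _ hq.1.1)
  rw [h1, h2, h3]
  exact Finset.sum_mul_sq_le_sq_mul_sq X _ _

/-- the second step -/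
lemma sum_energy {W G : Type} [DecidableEq W] [AddCommGroup G] [DecidableEq G] (C D : Finset W)
    (f h : W → G) :
    (#{q ∈ (C ×ˢ D) ×ˢ (C ×ˢ D) | f q.1.1 + h q.1.2 = f q.2.1 + h q.2.2}) ^ 2 ≤
      #{q ∈ quad C | f q.1 + f q.2.1 = f q.2.2.1 + f q.2.2.2} *
      #{q ∈ quad D | h q.1 + h q.2.1 = h q.2.2.1 + h q.2.2.2} := by
  have e1 : #{q ∈ (C ×ˢ D) ×ˢ (C ×ˢ D) | f q.1.1 + h q.1.2 = f q.2.1 + h q.2.2} =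
      #{q ∈ (C ×ˢ C) ×ˢ (D ×ˢ D) | f q.1.1 - f q.1.2 = h q.2.2 - h q.2.1} := by
    apply Finset.card_nbij' (fun q => ((q.1.1, q.2.1), (q.1.2, q.2.2)))
      (fun q => ((q.1.1, q.2.1), (q.1.2, q.2.2)))
    · rintro ⟨⟨a, b⟩, ⟨c, d⟩⟩ hq
      simp only [coe_filter, mem_product, Set.mem_ofPred_eq] at hq ⊢
      obtain ⟨⟨⟨h1, h2⟩, h3, h4⟩, h5⟩ := hq
      refine ⟨⟨⟨h1, h3⟩, h2, h4⟩, ?_⟩
      rw [sub_eq_sub_iff_add_eq_add, h5, add_comm]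
    · rintro ⟨⟨a, b⟩, ⟨c, d⟩⟩ hq
      simp only [coe_filter, mem_product, Set.mem_ofPred_eq] at hq ⊢
      obtain ⟨⟨⟨h1, h2⟩, h3, h4⟩, h5⟩ := hq
      refine ⟨⟨⟨h1, h3⟩, h2, h4⟩, ?_⟩
      rw [sub_eq_sub_iff_add_eq_add] at h5
      rw [h5, add_comm]
    · rintro ⟨⟨a, b⟩, ⟨c, d⟩⟩ _
      rfl
    · rintro ⟨⟨a, b⟩, ⟨c, d⟩⟩ _
      rfl
  have e2 : #{q ∈ (C ×ˢ C) ×ˢ (C ×ˢ C) | f q.1.1 - f q.1.2 = f q.2.1 - f q.2.2} =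
      #{q ∈ quad C | f q.1 + f q.2.1 = f q.2.2.1 + f q.2.2.2} := by
    apply Finset.card_nbij' (fun q => (q.1.1, q.2.2, q.2.1, q.1.2))
      (fun q => ((q.1, q.2.2.2), (q.2.2.1, q.2.1)))
    · rintro ⟨⟨a, b⟩, ⟨c, d⟩⟩ hq
      simp only [quad, coe_filter, mem_product, Set.mem_ofPred_eq] at hq ⊢
      obtain ⟨⟨⟨h1, h2⟩, h3, h4⟩, h5⟩ := hq
      rw [sub_eq_sub_iff_add_eq_add] at h5
      exact ⟨⟨h1, h4, h3, h2⟩, h5⟩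
    · rintro ⟨a, b, c, d⟩ hq
      simp only [quad, coe_filter, mem_product, Set.mem_ofPred_eq] at hq ⊢
      obtain ⟨⟨h1, h2, h3, h4⟩, h5⟩ := hq
      rw [sub_eq_sub_iff_add_eq_add]
      exact ⟨⟨⟨h1, h4⟩, h3, h2⟩, h5⟩
    · rintro ⟨⟨a, b⟩, ⟨c, d⟩⟩ _
      rfl
    · rintro ⟨a, b, c, d⟩ _
      rfl
  have e3 : #{q ∈ (D ×ˢ D) ×ˢ (D ×ˢ D) | h q.1.2 - h q.1.1 = h q.2.2 - h q.2.1} =
      #{q ∈ quad D | h q.1 + h q.2.1 = h q.2.2.1 + h q.2.2.2} := by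
    apply Finset.card_nbij' (fun q => (q.1.2, q.2.1, q.2.2, q.1.1))
      (fun q => ((q.2.2.2, q.1), (q.2.1, q.2.2.1)))
    · rintro ⟨⟨a, b⟩, ⟨c, d⟩⟩ hq
      simp only [quad, coe_filter, mem_product, Set.mem_ofPred_eq] at hq ⊢
      obtain ⟨⟨⟨h1, h2⟩, h3, h4⟩, h5⟩ := hq
      rw [sub_eq_sub_iff_add_eq_add] at h5
      exact ⟨⟨h2, h3, h4, h1⟩, h5⟩
    · rintro ⟨a, b, c, d⟩ hq
      simp only [quad, coe_filter, mem_product, Set.mem_ofPred_eq] at hq ⊢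
      obtain ⟨⟨h1, h2, h3, h4⟩, h5⟩ := hq
      rw [sub_eq_sub_iff_add_eq_add]
      exact ⟨⟨⟨h4, h1⟩, h2, h3⟩, h5⟩
    · rintro ⟨⟨a, b⟩, ⟨c, d⟩⟩ _
      rfl
    · rintro ⟨a, b, c, d⟩ _
      rfl
  rw [e1, ← e2, ← e3]
  exact pairs_sq (C ×ˢ C) (D ×ˢ D) (fun q => f q.1 - f q.2) (fun q => h q.2 - h q.1)

theorem cs : CsStatement := by
  intro W G _ _ _ C f g
  have e0 : #{q ∈ C 0 ×ˢ C 1 ×ˢ C 2 ×ˢ C 3 | f 0 q.1 + f 1 q.2.1 + f 2 q.2.2.1 +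
      f 3 q.2.2.2 = g} =
      #{q ∈ (C 0 ×ˢ C 1) ×ˢ (C 2 ×ˢ C 3) | f 0 q.1.1 + f 1 q.1.2 =
        g - (f 2 q.2.1 + f 3 q.2.2)} := by
    apply Finset.card_nbij' (fun q => ((q.1, q.2.1), (q.2.2.1, q.2.2.2)))
      (fun q => (q.1.1, q.1.2, q.2.1, q.2.2))
    · rintro ⟨a, b, c, d⟩ hq
      simp only [coe_filter, mem_product, Set.mem_ofPred_eq] at hq ⊢
      obtain ⟨⟨h1, h2, h3, h4⟩, h5⟩ := hq
      refine ⟨⟨⟨h1, h2⟩, h3, h4⟩, ?_⟩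
      rw [← h5]
      abel
    · rintro ⟨⟨a, b⟩, ⟨c, d⟩⟩ hq
      simp only [coe_filter, mem_product, Set.mem_ofPred_eq] at hq ⊢
      obtain ⟨⟨⟨h1, h2⟩, h3, h4⟩, h5⟩ := hq
      refine ⟨⟨h1, h2, h3, h4⟩, ?_⟩
      rw [h5]
      abel
    · rintro ⟨a, b, c, d⟩ _
      rfl
    · rintro ⟨⟨a, b⟩, ⟨c, d⟩⟩ _
      rfl
  have h1 := pairs_sq (C 0 ×ˢ C 1) (C 2 ×ˢ C 3) (fun q => f 0 q.1 + f 1 q.2)
    (fun q => g - (f 2 q.1 + f 3 q.2))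
  have e1 : #{q ∈ (C 2 ×ˢ C 3) ×ˢ (C 2 ×ˢ C 3) | g - (f 2 q.1.1 + f 3 q.1.2) =
      g - (f 2 q.2.1 + f 3 q.2.2)} =
      #{q ∈ (C 2 ×ˢ C 3) ×ˢ (C 2 ×ˢ C 3) | f 2 q.1.1 + f 3 q.1.2 = f 2 q.2.1 + f 3 q.2.2} := by
    congr 1
    apply Finset.filter_congr
    intro q _
    exact sub_right_inj
  rw [e1] at h1
  have h2 := sum_energy (C 0) (C 1) (f 0) (f 1)
  have h3 := sum_energy (C 2) (C 3) (f 2) (f 3)
  rw [e0, Fin.prod_univ_four]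
  set N := #{q ∈ (C 0 ×ˢ C 1) ×ˢ (C 2 ×ˢ C 3) | f 0 q.1.1 + f 1 q.1.2 =
        g - (f 2 q.2.1 + f 3 q.2.2)}
  calc N ^ 4 = (N ^ 2) ^ 2 := by ring
    _ ≤ (#{q ∈ (C 0 ×ˢ C 1) ×ˢ (C 0 ×ˢ C 1) | f 0 q.1.1 + f 1 q.1.2 = f 0 q.2.1 + f 1 q.2.2} *
        #{q ∈ (C 2 ×ˢ C 3) ×ˢ (C 2 ×ˢ C 3) |
          f 2 q.1.1 + f 3 q.1.2 = f 2 q.2.1 + f 3 q.2.2}) ^ 2 := Nat.pow_le_pow_left h1 2
    _ = #{q ∈ (C 0 ×ˢ C 1) ×ˢ (C 0 ×ˢ C 1) | f 0 q.1.1 + f 1 q.1.2 = f 0 q.2.1 + f 1 q.2.2} ^ 2 *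
        #{q ∈ (C 2 ×ˢ C 3) ×ˢ (C 2 ×ˢ C 3) |
          f 2 q.1.1 + f 3 q.1.2 = f 2 q.2.1 + f 3 q.2.2} ^ 2 := mul_pow _ _ _
    _ ≤ _ := Nat.mul_le_mul h2 h3
    _ = _ := by ring

end Pool.Agent.Lib.MP_0a5adf_nt.EXP.H78
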