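import Pool.Agent.Lib.MP_0a5adf_nt.EXP.Base

/-!
# Module DECOMP: the decomposition (2.1), (2.2)
-/

set_option autoImplicit false

namespace Pool.Agent.Lib.MP_0a5adf_nt.EXP.H78

open Finset

lemma block (hW : WordsStatement) (m : ℕ) (x : ℤ) (i : ℕ) :
    2 ^ m * T^[(i + 1) * m] x = 3 ^ ones (bw m x i) * T^[i * m] x + rr (bw m x i) := by
  have h := hW.1 m (T^[i * m] x)
  rw [← Function.iterate_add_apply] at h
  have e : (i + 1) * m = m + i * m := by ring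
  rw [e]
  exact h

theorem decomp (hW : WordsStatement) (hS : SolStatement) : DecompStatement := by
  intro m c x J0 J1 J2 j3 hx hJ0 hJ1 hJ2 hj3
  have b0 := block hW m x 0
  have b1 := block hW m x 1
  have b2 := block hW m x 2
  have b3 := block hW m x 3
  simp only [Nat.zero_add, Nat.zero_mul, Function.iterate_zero, id_eq, Nat.one_mul] at b0 b1
  norm_num at b1 b2 b3
  obtain ⟨p0, q0, z0⟩ := hS J0 (3 * m) (rr (bw m x 0))
  obtain ⟨p1, q1, z1⟩ := hS J1 (2 * m) (rr (bw m x 1))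
  obtain ⟨p2, q2, z2⟩ := hS J2 m (rr (bw m x 2))
  set j0 := ones (bw m x 0)
  set j1 := ones (bw m x 1)
  set j2 := ones (bw m x 2)
  set r0 := rr (bw m x 0)
  set r1 := rr (bw m x 1)
  set r2 := rr (bw m x 2)
  set r3 := rr (bw m x 3)
  set X0 := sol J0 (3 * m) r0
  set X1 := sol J1 (2 * m) r1
  set X2 := sol J2 m r2
  set ζ0 := zeta J0 (3 * m) r0
  set ζ1 := zeta J1 (2 * m) r1
  set ζ2 := zeta J2 m r2
  have d0 : J2 - J0 = j1 + j2 := by omega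
  have d1 : J2 - J1 = j2 := by omega
  rw [d0, d1, hj3]
  rw [← hj3] at b3 ⊢
  set P : ℤ := 2 ^ m with hP
  have hPpos : 0 < P := by positivity
  have e3 : (2 : ℤ) ^ (3 * m) = P ^ 3 := by rw [hP, ← pow_mul]; ring_nf
  have e2 : (2 : ℤ) ^ (2 * m) = P ^ 2 := by rw [hP, ← pow_mul]; ring_nf
  rw [e3] at z0 q0 ⊢
  rw [e2] at z1 q1 ⊢
  have hJ0' : (3 : ℤ) ^ J0 = 3 ^ j0 := by rw [hJ0]
  have hJ1' : (3 : ℤ) ^ J1 = 3 ^ j0 * 3 ^ j1 := by rw [hJ1, pow_add, hJ0']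
  have hJ2' : (3 : ℤ) ^ J2 = 3 ^ j0 * 3 ^ j1 * 3 ^ j2 := by rw [hJ2, pow_add, hJ1']
  rw [hJ0'] at z0
  rw [hJ1'] at z1
  rw [hJ2'] at z2
  rw [pow_add 3 j3 (j1 + j2), pow_add 3 j1 j2, pow_add 3 j3 j2, pow_add 3 j3 J2, hJ2']
  -- the main identity
  have main : (3 : ℤ) ^ j0 * 3 ^ j1 * 3 ^ j2 * (X0 + P * X1 + P ^ 2 * X2 - x) =
      P ^ 3 * (3 ^ j1 * 3 ^ j2 * ζ0 + 3 ^ j2 * ζ1 + ζ2 - T^[3 * m] x) := by
    linear_combination (-(3 : ℤ) ^ j1 * 3 ^ j2) * z0 - (3 ^ j2 * P) * z1 - P ^ 2 * z2 +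
      (3 ^ j1 * 3 ^ j2) * b0 + (3 ^ j2 * P) * b1 + P ^ 2 * b2
  have hcop : IsCoprime (P ^ 3) ((3 : ℤ) ^ j0 * 3 ^ j1 * 3 ^ j2) := by
    rw [← pow_add, ← pow_add, hP]
    apply IsCoprime.pow
    apply IsCoprime.pow_left
    exact ⟨-1, 1, by norm_num⟩
  have hdvd : P ^ 3 ∣ X0 + P * X1 + P ^ 2 * X2 - x := by
    apply hcop.dvd_of_dvd_mul_left
    rw [main]
    exact dvd_mul_right _ _
  obtain ⟨κ, hκ⟩ := hdvd
  have hP3 : 0 < P ^ 3 := by positivity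
  rw [hκ] at main
  have main2 : (3 : ℤ) ^ j0 * 3 ^ j1 * 3 ^ j2 * κ =
      3 ^ j1 * 3 ^ j2 * ζ0 + 3 ^ j2 * ζ1 + ζ2 - T^[3 * m] x := by
    apply mul_left_cancel₀ hP3.ne'
    rw [← main]
    ring
  refine ⟨κ, ?_, by linear_combination -hκ, ?_⟩
  · have hx' : |x| ≤ P ^ 3 * 2 ^ c := by
      rw [← e3, ← pow_add]
      exact hx
    rw [abs_le] at hx' ⊢
    have hb1 : P * X1 ≤ P * P ^ 2 := mul_le_mul_of_nonneg_left q1.le hPpos.le
    have hb2 : P ^ 2 * X2 ≤ P ^ 2 * P := mul_le_mul_of_nonneg_left q2.le (by positivity)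
    have hb1' : 0 ≤ P * X1 := by positivity
    have hb2' : 0 ≤ P ^ 2 * X2 := by positivity
    constructor
    · by_contra h
      push Not at h
      have h2 : κ + 1 ≤ -(3 + 2 ^ c) := by linarith [Int.add_one_le_iff.2 h]
      have h3 : P ^ 3 * (κ + 1) ≤ P ^ 3 * (-(3 + 2 ^ c)) := mul_le_mul_of_nonneg_left h2 hP3.le
      rw [mul_add, mul_neg, mul_add] at h3
      linarith [hx'.2]
    · by_contra h
      push Not at h
      have h2 : 3 + 2 ^ c + 1 ≤ κ := Int.add_one_le_iff.2 h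
      have h3 : P ^ 3 * (3 + 2 ^ c + 1) ≤ P ^ 3 * κ := mul_le_mul_of_nonneg_left h2 hP3.le
      rw [mul_add, mul_add] at h3
      have h4 : P * P ^ 2 = P ^ 3 := by ring
      have h5 : P ^ 2 * P = P ^ 3 := by ring
      rw [h4] at hb1
      rw [h5] at hb2
      linarith [hx'.1]
  · refine ⟨T^[4 * m] x, ?_⟩
    linear_combination -b3 - 3 ^ j3 * main2

end Pool.Agent.Lib.MP_0a5adf_nt.EXP.H78
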